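import Mathlib

/-!
# Definitions for lozenge tilings of a regular hexagon with two unit-lobed intrusions
-/

set_option autoImplicit false

namespace Pool.Agent.K3h88.Loz

open Finset Filter Topology

/-! ### The region

Lattice points are pairs `(a, y)`, standing for the point `a (1, 0) + y (1/2, √3/2)` of the plane. -/

/-- lattice points of the regular hexagon with side `L` whose horizontal diagonal joins `(0, 0)`
and `(2 L, 0)` -/
def HexPt (L : ℤ) (v : ℤ × ℤ) : Prop :=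
  -L ≤ v.2 ∧ v.2 ≤ L ∧ 0 ≤ v.1 ∧ v.1 ≤ 2 * L ∧ 0 ≤ v.1 + v.2 ∧ v.1 + v.2 ≤ 2 * L

/-- the up-pointing triangle with the left end `u` of its base lies in the hexagon -/
def HexUp (L : ℤ) (u : ℤ × ℤ) : Prop :=
  HexPt L u ∧ HexPt L (u.1 + 1, u.2) ∧ HexPt L (u.1, u.2 + 1)

/-- the down-pointing triangle with the vertices `(a, y + 1)`, `(a + 1, y + 1)`, `(a + 1, y)`,
`d = (a, y)`, lies in the hexagon -/
def HexDn (L : ℤ) (d : ℤ × ℤ) : Prop :=
  HexPt L (d.1, d.2 + 1) ∧ HexPt L (d.1 + 1, d.2 + 1) ∧ HexPt L (d.1 + 1, d.2)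

/-- side of the hexagon -/
def side (N m n : ℕ) : ℕ := N + (m + n) / 2

/-- the unit segment number `a` of the line `ℓ` belongs to a lobe of a fern with index `i`,
where `i` is even (up-pointing) or odd (down-pointing) as `q` says -/
def Lobe (q : ℕ → Prop) (N m n x : ℕ) (a : ℤ) : Prop :=
  (∃ i : ℕ, i < m ∧ q i ∧ a = i) ∨
    (∃ i : ℕ, i < n ∧ q i ∧ a = 2 * (side N m n : ℤ) - x - 1 - i)

/-- up-pointing triangles of the region -/
def upR (N m n x : ℕ) : Set (ℤ × ℤ) :=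
  {u | HexUp (side N m n) u ∧ ¬ (u.2 = x ∧ Lobe (fun i => Even i) N m n x u.1)}

/-- down-pointing triangles of the region -/
def dnR (N m n x : ℕ) : Set (ℤ × ℤ) :=
  {d | HexDn (side N m n) d ∧ ¬ (d.2 + 1 = x ∧ Lobe (fun i => Odd i) N m n x d.1)}

/-- the up-pointing triangle `u` and the down-pointing triangle `d` share an edge -/
def adjT (u d : ℤ × ℤ) : Prop := d = (u.1, u.2 - 1) ∨ d = (u.1 - 1, u.2) ∨ d = u

/-- lozenge tilings: sets of lozenges (pairs of an up-pointing and a down-pointing triangle with a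
common edge) that cover every triangle exactly once -/
def IsTiling (up dn : Set (ℤ × ℤ)) (τ : Set ((ℤ × ℤ) × (ℤ × ℤ))) : Prop :=
  (∀ l ∈ τ, l.1 ∈ up ∧ l.2 ∈ dn ∧ adjT l.1 l.2) ∧ (∀ u ∈ up, ∃! d, (u, d) ∈ τ) ∧
    (∀ d ∈ dn, ∃! u, (u, d) ∈ τ)

/-- the number of lozenge tilings -/
noncomputable def numT (N m n x : ℕ) : ℕ :=
  Nat.card {τ : Set ((ℤ × ℤ) × (ℤ × ℤ)) // IsTiling (upR N m n x) (dnR N m n x) τ}

/-! ### Algebra -/

/-- number of elements below `t` -/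
noncomputable def cnt (X : Finset ℤ) (t : ℤ) : ℕ := (X.filter (fun a => a < t)).card

/-- `Y` interlaces `X`: `x_i ≤ y_i < x_{i+1}` -/
def IL (Y X : Finset ℤ) : Prop :=
  Y.card + 1 = X.card ∧ ∀ t, cnt Y t ≤ cnt X t ∧ cnt X (t + 1) ≤ cnt Y t + 1

/-- Vandermonde product -/
noncomputable def vd (X : Finset ℤ) : ℝ :=
  ∏ p ∈ (X ×ˢ X).filter (fun p => p.1 < p.2), ((p.2 : ℝ) - (p.1 : ℝ))

/-- `0! 1! ... (n-1)!` -/
noncomputable def sf (n : ℕ) : ℝ := ∏ i ∈ range n, (i.factorial : ℝ)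

noncomputable def tt (X : Finset ℤ) : ℝ := vd X / sf X.card

/-- all pairwise distances between `U` and `E` -/
noncomputable def PP (U E : Finset ℤ) : ℝ := ∏ u ∈ U, ∏ e ∈ E, |(u : ℝ) - (e : ℝ)|

open Classical in
/-- brick C1: sum over interlacing sets -/
def StmC1 : Prop := ∀ (lo hi : ℤ) (X : Finset ℤ), X ⊆ Ico lo hi → X.Nonempty →
  tt X = ∑ Y ∈ (Ico lo (hi - 1)).powerset.filter (fun Y => IL Y X), tt Y

open Classical in
/-- brick C2: chain lemma with two blocks -/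
def StmC2 : Prop := ∀ (b b' : ℕ) (lo hi : ℤ) (X : Finset ℤ), X ⊆ Ico lo hi → lo ≤ hi →
  tt (Ico (lo - (b + 1)) lo ∪ X ∪ Ico hi (hi + (b' + 1))) =
    ∑ S ∈ (Ico lo (hi + 1)).powerset.filter (fun S => IL X S),
      tt (Ico (lo - b) lo ∪ S ∪ Ico (hi + 1) (hi + 1 + b'))

open Classical in
/-- brick C3: the sum over one line -/
def StmC3 : Prop := ∀ (K g α β : ℕ),
  ∑ S ∈ (Ico (0 : ℤ) (g + K)).powersetCard K,
      tt S * tt (Ico (-(α : ℤ)) 0 ∪ S ∪ Ico ((g : ℤ) + K) (g + K + β)) =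
    tt (Ico (-((α : ℤ) + K)) 0 ∪ Ico (g : ℤ) (g + K + β))

/-- positions of the up-pointing lobes -/
noncomputable def Us (N m n x : ℕ) : Finset ℤ :=
  ((range m).filter (fun i => Even i)).image (fun i : ℕ => (i : ℤ)) ∪
    ((range n).filter (fun i => Even i)).image
      (fun i : ℕ => 2 * (side N m n : ℤ) - x - 1 - i)

/-- positions of the down-pointing lobes -/
noncomputable def Ds (N m n x : ℕ) : Finset ℤ :=
  ((range m).filter (fun i => Odd i)).image (fun i : ℕ => (i : ℤ)) ∪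
    ((range n).filter (fun i => Odd i)).image
      (fun i : ℕ => 2 * (side N m n : ℤ) - x - 1 - i)

/-- down-pointing lobes and the two corner blocks -/
noncomputable def Es (N m n x : ℕ) : Finset ℤ :=
  Ico (-(x : ℤ)) 0 ∪ Ds N m n x ∪ Ico (2 * (side N m n : ℤ) - x) (2 * (side N m n : ℤ))

/-! #### From tilings to sets -/

/-- a row can be filled: ups `A`, downs `B` -/
def rowOK (A B : Finset ℤ) : Prop :=
  A.card = B.card ∧ ∀ t, cnt A t ≤ cnt B t ∧ cnt B t ≤ cnt A (t + 1)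

open Classical in
/-- number of ways to fill the rows `0, ..., k - 1` when the down-pointing triangles of row
`k - 1` at the positions `Q` are used from above -/
noncomputable def chains (up dn : ℕ → Finset ℤ) : ℕ → Finset ℤ → ℕ
  | 0, Q => if Q = ∅ then 1 else 0
  | k + 1, Q => if Q ⊆ dn k then
      ∑ S ∈ (up k).powerset.filter (fun S => rowOK (up k \ S) (dn k \ Q)), chains up dn k S
    else 0

/-- brick C4a: tilings of a region given by rows -/
def StmC4a : Prop := ∀ (R : ℕ) (up dn : ℕ → Finset ℤ) (Up Dn : Set (ℤ × ℤ)) (y0 : ℤ),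
  (∀ u : ℤ × ℤ, u ∈ Up ↔ ∃ k, k < R ∧ u.2 = y0 + k ∧ u.1 ∈ up k) →
  (∀ d : ℤ × ℤ, d ∈ Dn ↔ ∃ k, k < R ∧ d.2 = y0 + k ∧ d.1 ∈ dn k) →
  Nat.card {τ : Set ((ℤ × ℤ) × (ℤ × ℤ)) // IsTiling Up Dn τ} = chains up dn R ∅

/-- the up-pointing triangles of row `k` (the row above the line `y = k - L`) -/
noncomputable def upRow (N m n x k : ℕ) : Finset ℤ :=
  if k < side N m n then Ico ((side N m n : ℤ) - k) (2 * (side N m n : ℤ))
  else if k = side N m n + x then Ico (0 : ℤ) (3 * (side N m n : ℤ) - k) \ Us N m n x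
  else Ico (0 : ℤ) (3 * (side N m n : ℤ) - k)

/-- the down-pointing triangles of row `k` -/
noncomputable def dnRow (N m n x k : ℕ) : Finset ℤ :=
  (if k < side N m n then Ico ((side N m n : ℤ) - k - 1) (2 * (side N m n : ℤ))
  else Ico (0 : ℤ) (3 * (side N m n : ℤ) - k - 1)) \
    (if k + 1 = side N m n + x then Ds N m n x else ∅)

/-- brick C4b: the rows of the region -/
def StmC4b : Prop := ∀ (N m n x : ℕ), Even m → Even n → x ≤ N →
  (∀ u : ℤ × ℤ, u ∈ upR N m n x ↔ ∃ k, k < 2 * side N m n ∧ u.2 = -(side N m n : ℤ) + k ∧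
    u.1 ∈ upRow N m n x k) ∧
  (∀ d : ℤ × ℤ, d ∈ dnR N m n x ↔ ∃ k, k < 2 * side N m n ∧ d.2 = -(side N m n : ℤ) + k ∧
    d.1 ∈ dnRow N m n x k)

/-- brick C4c: the rows below the line `ℓ` -/
def StmC4c : Prop := ∀ (N m n x : ℕ), Even m → Even n → x ≤ N → ∀ S : Finset ℤ,
  S ⊆ Ico (m : ℤ) (2 * (side N m n : ℤ) - x - n) → S.card = N - x →
  (chains (upRow N m n x) (dnRow N m n x) (side N m n + x) S : ℝ) = tt (Es N m n x ∪ S)

/-- brick C4d: the rows above the line `ℓ` -/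
def StmC4d : Prop := ∀ (N m n x : ℕ), Even m → Even n → x ≤ N →
  (chains (upRow N m n x) (dnRow N m n x) (2 * side N m n) ∅ : ℝ) =
    ∑ S ∈ (Ico (m : ℤ) (2 * (side N m n : ℤ) - x - n)).powersetCard (N - x),
      tt (Us N m n x ∪ S) * (chains (upRow N m n x) (dnRow N m n x) (side N m n + x) S : ℝ)

/-- brick C5: the closed form from the sum over one line -/
def StmC5 : Prop := ∀ (N m n x : ℕ), Even m → Even n → x ≤ N →
  ∑ S ∈ (Ico (m : ℤ) (2 * (side N m n : ℤ) - x - n)).powersetCard (N - x),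
      tt (Us N m n x ∪ S) * tt (Es N m n x ∪ S) =
    sf (N - x) * sf (N + (m + n) + x) * sf (m + N) * sf (n + N) * sf (3 * N + (m + n)) * sf N /
      (sf (side N m n - x) * sf (side N m n + x) * sf (2 * side N m n) * sf (2 * N + m) *
        sf (2 * N + n) * PP (Us N m n x) (Es N m n x))

/-! ### Asymptotics -/

/-- second primitive of the logarithm -/
noncomputable def V (a : ℝ) : ℝ := a ^ 2 / 2 * Real.log a - 3 / 4 * a ^ 2

/-- brick H1 -/
def StmH1 : Prop := ∀ (L k : ℕ → ℕ) (ξ : ℝ), Tendsto L atTop atTop →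
  Tendsto (fun i => (k i : ℝ) / L i) atTop (𝓝 ξ) →
  Tendsto (fun i => Real.log (sf (k i)) / (L i : ℝ) ^ 2 -
    ((k i : ℝ) / L i) ^ 2 / 2 * Real.log (L i)) atTop (𝓝 (V ξ))

/-- the main term of `2 log PP` -/
noncomputable def Xi (N m n x : ℕ) : ℝ :=
  Real.log (sf (x + m)) + Real.log (sf (x + n)) - 2 * Real.log (sf x) +
    Real.log (sf (2 * N - x)) - Real.log (sf (2 * side N m n - x)) +
    2 * Real.log (sf (2 * side N m n)) - Real.log (sf (2 * side N m n - m)) -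
    Real.log (sf (2 * side N m n - n))

/-- brick H2 -/
def StmH2 : Prop := ∃ C : ℝ, ∀ (N m n x : ℕ), Even m → Even n → x ≤ N → 1 ≤ side N m n →
  |Real.log (PP (Us N m n x) (Es N m n x)) - Xi N m n x / 2| ≤
    C * side N m n * Real.log (4 * side N m n)

/-- the growth rate -/
noncomputable def Phi (p h r : ℝ) : ℝ :=
  V (1 - p / 2 - h) + V (1 + p / 2 + h) + V (p * r / (1 + r) + (1 - p / 2)) +
    V (p / (1 + r) + (1 - p / 2)) + V (3 - p / 2) + V (1 - p / 2) -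
    V (1 - h) - V (1 + h) - V 2 - V (2 - p + p * r / (1 + r)) - V (2 - p + p / (1 + r)) -
    (V (h + p * r / (1 + r)) + V (h + p / (1 + r)) - 2 * V h + V (2 - p - h) - V (2 - h) +
      2 * V 2 - V (2 - p * r / (1 + r)) - V (2 - p / (1 + r))) / 2

/-- admissible parameter sequences -/
def Adm (p h r : ℝ) (N m n x : ℕ → ℕ) : Prop :=
  (∀ i, Even (m i)) ∧ (∀ i, Even (n i)) ∧ (∀ i, x i ≤ N i) ∧
    Tendsto (fun i => side (N i) (m i) (n i)) atTop atTop ∧
    Tendsto (fun i => ((m i : ℝ) + n i) / side (N i) (m i) (n i)) atTop (𝓝 p) ∧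
    Tendsto (fun i => (x i : ℝ) / side (N i) (m i) (n i)) atTop (𝓝 h) ∧
    Tendsto (fun i => (m i : ℝ) / n i) atTop (𝓝 r)

/-- brick H3: the limit, given the closed form -/
def StmH3 : Prop := StmH1 → StmH2 →
  (∀ (N m n x : ℕ), Even m → Even n → x ≤ N → (numT N m n x : ℝ) =
    sf (N - x) * sf (N + (m + n) + x) * sf (m + N) * sf (n + N) * sf (3 * N + (m + n)) * sf N /
      (sf (side N m n - x) * sf (side N m n + x) * sf (2 * side N m n) * sf (2 * N + m) *
        sf (2 * N + n) * PP (Us N m n x) (Es N m n x))) →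
  ∀ (p h r : ℝ), 0 < p → p < 2 → 0 < h → h ≤ 1 - p / 2 → 0 < r → ∀ N m n x : ℕ → ℕ,
    Adm p h r N m n x →
    Tendsto (fun i => Real.log (numT (N i) (m i) (n i) (x i)) /
      (side (N i) (m i) (n i) : ℝ) ^ 2) atTop (𝓝 (Phi p h r))

/-- brick J1: existence of admissible sequences -/
def StmJ1 : Prop := ∀ (p h r : ℝ), 0 < p → p < 2 → 0 < h → h ≤ 1 - p / 2 → 0 < r →
  ∃ N m n x : ℕ → ℕ, Adm p h r N m n x

/-- brick J2: strict convexity -/
def StmJ2 : Prop := ∀ (p h r : ℝ), 0 < p → p < 2 → 0 < h → h ≤ 1 - p / 2 →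
  (h + p / 2) * (2 - p / 2) < 1 → 0 < r → r ≠ 1 → Phi p h 1 < Phi p h r

end Pool.Agent.K3h88.Loz
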