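import Pool.Agent.K3h19.Loz.C4a
import Pool.Agent.K3h24.Loz.C4bc
import Pool.Agent.K3h24.Loz.C4d
import Pool.Agent.K3h33.Loz.C1
import Pool.Agent.K3h56.Loz.C23
import Pool.Agent.K3h8.Loz.C5

/-!
# The number of tilings in closed form
-/

set_option autoImplicit false

namespace Pool.Agent.K3h88.Loz

/-- the closed form from the bricks -/
theorem closed_of (h4a : StmC4a) (h4b : StmC4b) (h4c : StmC4c) (h4d : StmC4d) (h5 : StmC5)
    (N m n x : ℕ) (hm : Even m) (hn : Even n) (hx : x ≤ N) : (numT N m n x : ℝ) =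
    sf (N - x) * sf (N + (m + n) + x) * sf (m + N) * sf (n + N) * sf (3 * N + (m + n)) * sf N /
      (sf (side N m n - x) * sf (side N m n + x) * sf (2 * side N m n) * sf (2 * N + m) *
        sf (2 * N + n) * PP (Us N m n x) (Es N m n x)) := by
  have e1 : numT N m n x = chains (upRow N m n x) (dnRow N m n x) (2 * side N m n) ∅ := by
    unfold numT
    exact h4a _ _ _ _ _ _ (h4b N m n x hm hn hx).1 (h4b N m n x hm hn hx).2
  rw [e1, h4d N m n x hm hn hx, ← h5 N m n x hm hn hx]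
  refine Finset.sum_congr rfl fun S hS => ?_
  rw [Finset.mem_powersetCard] at hS
  rw [h4c N m n x hm hn hx S hS.1 hS.2]

theorem c1 : StmC1 := Pool.Agent.K3h33.Loz.c1

theorem c2 : StmC2 := Pool.Agent.K3h56.Loz.c2 c1

theorem c3 : StmC3 := Pool.Agent.K3h56.Loz.c3 c1 c2

theorem closed (N m n x : ℕ) (hm : Even m) (hn : Even n) (hx : x ≤ N) : (numT N m n x : ℝ) =
    sf (N - x) * sf (N + (m + n) + x) * sf (m + N) * sf (n + N) * sf (3 * N + (m + n)) * sf N /
      (sf (side N m n - x) * sf (side N m n + x) * sf (2 * side N m n) * sf (2 * N + m) *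
        sf (2 * N + n) * PP (Us N m n x) (Es N m n x)) :=
  closed_of Pool.Agent.K3h19.Loz.c4a Pool.Agent.K3h24.Loz.c4b (Pool.Agent.K3h24.Loz.c4c c1 c2)
    (Pool.Agent.K3h24.Loz.c4d c1) (Pool.Agent.K3h8.Loz.c5 c3) N m n x hm hn hx

end Pool.Agent.K3h88.Loz
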