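import Pool.Agent.K3h88.Loz.Stm

/-!
# Strict convexity of the growth rate
-/

set_option autoImplicit false

namespace Pool.Agent.K3h88.Loz

open Set

/-- derivative of `V` -/
noncomputable def W1 (a : ℝ) : ℝ := a * Real.log a - a

theorem hasDerivAt_V {a : ℝ} (ha : 0 < a) : HasDerivAt V (W1 a) a := by
  have h1 : HasDerivAt (fun a : ℝ => a ^ 2 / 2) a a := by
    have := (hasDerivAt_pow 2 a).div_const 2
    simpa using this
  have h2 := Real.hasDerivAt_log ha.ne'
  have h3 : HasDerivAt (fun a : ℝ => 3 / 4 * a ^ 2) (3 / 4 * (2 * a)) a := by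
    have := (hasDerivAt_pow 2 a).const_mul (3 / 4 : ℝ)
    simpa using this
  have h4 := (h1.mul h2).sub h3
  have e : W1 a = a * Real.log a + a ^ 2 / 2 * a⁻¹ - 3 / 4 * (2 * a) := by
    rw [W1]; field_simp; ring
  rw [e]
  exact h4

theorem hasDerivAt_W1 {a : ℝ} (ha : 0 < a) : HasDerivAt W1 (Real.log a) a := by
  have h2 := (hasDerivAt_id a).mul (Real.hasDerivAt_log ha.ne')
  have h4 := h2.sub (hasDerivAt_id a)
  have e : Real.log a = 1 * Real.log a + id a * a⁻¹ - 1 := by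
    simp only [id]; field_simp; ring
  rw [e]
  exact h4

theorem comp_add {f : ℝ → ℝ} {f' c d : ℝ} (h : HasDerivAt f f' (c + d)) :
    HasDerivAt (fun x => f (c + x)) f' d := HasDerivAt.comp_const_add c d h

theorem comp_sub {f : ℝ → ℝ} {f' c d : ℝ} (h : HasDerivAt f f' (c - d)) :
    HasDerivAt (fun x => f (c - x)) (-f') d := HasDerivAt.comp_const_sub c d h

/-- the part of the growth rate that depends on the difference of the slits -/
noncomputable def ff (p h d : ℝ) : ℝ :=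
  V (1 + d) + V (1 - d) - (V (h + p / 2 + d) + V (h + p / 2 - d)) / 2 -
    (V (2 - p / 2 + d) + V (2 - p / 2 - d)) / 2

noncomputable def ff1 (p h d : ℝ) : ℝ :=
  W1 (1 + d) - W1 (1 - d) - (W1 (h + p / 2 + d) - W1 (h + p / 2 - d)) / 2 -
    (W1 (2 - p / 2 + d) - W1 (2 - p / 2 - d)) / 2

noncomputable def ff2 (p h d : ℝ) : ℝ :=
  Real.log (1 + d) + Real.log (1 - d) - (Real.log (h + p / 2 + d) + Real.log (h + p / 2 - d)) / 2 -
    (Real.log (2 - p / 2 + d) + Real.log (2 - p / 2 - d)) / 2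

theorem der1 {p h d : ℝ} (hp2 : p < 2) (hh : 0 < h) (h1 : -(p / 2) < d)
    (h2 : d < p / 2) : HasDerivAt (ff p h) (ff1 p h d) d := by
  have a1 := comp_add (hasDerivAt_V (show (0 : ℝ) < 1 + d by linarith))
  have a2 := comp_sub (hasDerivAt_V (show (0 : ℝ) < 1 - d by linarith))
  have a3 := comp_add (hasDerivAt_V (show (0 : ℝ) < h + p / 2 + d by linarith))
  have a4 := comp_sub (hasDerivAt_V (show (0 : ℝ) < h + p / 2 - d by linarith))
  have a5 := comp_add (hasDerivAt_V (show (0 : ℝ) < 2 - p / 2 + d by linarith))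
  have a6 := comp_sub (hasDerivAt_V (show (0 : ℝ) < 2 - p / 2 - d by linarith))
  have := ((a1.add a2).sub ((a3.add a4).div_const 2)).sub ((a5.add a6).div_const 2)
  exact this

theorem der2 {p h d : ℝ} (hp2 : p < 2) (hh : 0 < h) (h1 : -(p / 2) < d)
    (h2 : d < p / 2) : HasDerivAt (ff1 p h) (ff2 p h d) d := by
  have a1 := comp_add (hasDerivAt_W1 (show (0 : ℝ) < 1 + d by linarith))
  have a2 := comp_sub (hasDerivAt_W1 (show (0 : ℝ) < 1 - d by linarith))
  have a3 := comp_add (hasDerivAt_W1 (show (0 : ℝ) < h + p / 2 + d by linarith))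
  have a4 := comp_sub (hasDerivAt_W1 (show (0 : ℝ) < h + p / 2 - d by linarith))
  have a5 := comp_add (hasDerivAt_W1 (show (0 : ℝ) < 2 - p / 2 + d by linarith))
  have a6 := comp_sub (hasDerivAt_W1 (show (0 : ℝ) < 2 - p / 2 - d by linarith))
  have := ((a1.sub a2).sub ((a3.sub a4).div_const 2)).sub ((a5.sub a6).div_const 2)
  have e : ff2 p h d = Real.log (1 + d) - -Real.log (1 - d) -
      (Real.log (h + p / 2 + d) - -Real.log (h + p / 2 - d)) / 2 -
      (Real.log (2 - p / 2 + d) - -Real.log (2 - p / 2 - d)) / 2 := by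
    simp only [ff2]; ring
  rw [e]
  exact this

theorem ff2_pos {p h d : ℝ} (hp : 0 < p) (hp2 : p < 2) (hh : 0 < h) (hhp : h ≤ 1 - p / 2)
    (hab : (h + p / 2) * (2 - p / 2) < 1) (h1 : -(p / 2) < d) (h2 : d < p / 2) :
    0 < ff2 p h d := by
  have b1 : (0 : ℝ) < 1 + d := by linarith
  have b2 : (0 : ℝ) < 1 - d := by linarith
  have b3 : (0 : ℝ) < h + p / 2 + d := by linarith
  have b4 : (0 : ℝ) < h + p / 2 - d := by linarith
  have b5 : (0 : ℝ) < 2 - p / 2 + d := by linarith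
  have b6 : (0 : ℝ) < 2 - p / 2 - d := by linarith
  have e : ff2 p h d = (Real.log (((1 + d) * (1 - d)) ^ 2) -
      Real.log (((h + p / 2 + d) * (h + p / 2 - d)) *
        ((2 - p / 2 + d) * (2 - p / 2 - d)))) / 2 := by
    rw [Real.log_pow, Real.log_mul b1.ne' b2.ne',
      Real.log_mul (mul_pos b3 b4).ne' (mul_pos b5 b6).ne',
      Real.log_mul b3.ne' b4.ne', Real.log_mul b5.ne' b6.ne', ff2]
    push_cast
    ring
  rw [e]
  apply div_pos _ two_pos
  rw [sub_pos]
  apply Real.log_lt_log (mul_pos (mul_pos b3 b4) (mul_pos b5 b6))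
  have hd2 : d ^ 2 < 1 := by nlinarith
  set a := h + p / 2 with ha
  set b := 2 - p / 2 with hb
  have ha0 : 0 < a := by linarith
  have ha1 : a ≤ 1 := by linarith
  have hb1 : 1 ≤ b := by linarith
  have hab2 : 0 < 1 - a ^ 2 * b ^ 2 := by
    have : 0 < a * b := by positivity
    nlinarith
  have key : ((1 + d) * (1 - d)) ^ 2 - ((a + d) * (a - d)) * ((b + d) * (b - d)) =
      (1 - a ^ 2 * b ^ 2) * (1 - d ^ 2) + (1 - a ^ 2) * (b ^ 2 - 1) * d ^ 2 := by ring
  have t1 : 0 < (1 - a ^ 2 * b ^ 2) * (1 - d ^ 2) := mul_pos hab2 (by linarith)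
  have t2 : 0 ≤ (1 - a ^ 2) * (b ^ 2 - 1) * d ^ 2 := by
    apply mul_nonneg (mul_nonneg _ _) (sq_nonneg d)
    · nlinarith
    · nlinarith
  linarith

theorem ff_even (p h d : ℝ) : ff p h (-d) = ff p h d := by
  simp only [ff, sub_neg_eq_add, ← sub_eq_add_neg]
  ring

theorem ff_lt {p h d : ℝ} (hp : 0 < p) (hp2 : p < 2) (hh : 0 < h) (hhp : h ≤ 1 - p / 2)
    (hab : (h + p / 2) * (2 - p / 2) < 1) (h1 : -(p / 2) < d) (h2 : d < p / 2) (hd : d ≠ 0) :
    ff p h 0 < ff p h d := by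
  have hconv : StrictConvexOn ℝ (Ioo (-(p / 2)) (p / 2)) (ff p h) := by
    apply StrictMonoOn.strictConvexOn_of_deriv (convex_Ioo _ _)
    · intro x hx
      exact (der1 hp2 hh hx.1 hx.2).continuousAt.continuousWithinAt
    · rw [interior_Ioo]
      have hEq : EqOn (deriv (ff p h)) (ff1 p h) (Ioo (-(p / 2)) (p / 2)) := by
        intro x hx
        exact (der1 hp2 hh hx.1 hx.2).deriv
      have hmono : StrictMonoOn (ff1 p h) (Ioo (-(p / 2)) (p / 2)) := by
        apply strictMonoOn_of_deriv_pos (convex_Ioo _ _)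
        · intro x hx
          exact (der2 hp2 hh hx.1 hx.2).continuousAt.continuousWithinAt
        · intro x hx
          rw [interior_Ioo] at hx
          rw [(der2 hp2 hh hx.1 hx.2).deriv]
          exact ff2_pos hp hp2 hh hhp hab hx.1 hx.2
      intro x hx y hy hxy
      rw [hEq hx, hEq hy]
      exact hmono hx hy hxy
  have hmem : d ∈ Ioo (-(p / 2)) (p / 2) := ⟨h1, h2⟩
  have hmem' : -d ∈ Ioo (-(p / 2)) (p / 2) := ⟨by linarith, by linarith⟩
  have hne : d ≠ -d := by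
    intro h
    apply hd
    linarith
  have := hconv.2 hmem hmem' hne (show (0 : ℝ) < 1 / 2 by norm_num)
    (show (0 : ℝ) < 1 / 2 by norm_num) (by norm_num)
  simp only [smul_eq_mul] at this
  rw [ff_even] at this
  have e : (1 / 2 : ℝ) * d + 1 / 2 * -d = 0 := by ring
  rw [e] at this
  linarith

theorem Phi_eq (p h : ℝ) : ∃ c : ℝ, ∀ r, 0 < r →
    Phi p h r = ff p h (p * (r - 1) / (2 * (1 + r))) + c := by
  refine ⟨V (1 - p / 2 - h) + V (1 + p / 2 + h) + V (3 - p / 2) + V (1 - p / 2) -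
    V (1 - h) - V (1 + h) - V 2 - (- 2 * V h + V (2 - p - h) - V (2 - h) + 2 * V 2) / 2, ?_⟩
  intro r hr
  have hr1 : (1 + r) ≠ 0 := by positivity
  set d := p * (r - 1) / (2 * (1 + r)) with hd
  have e1 : p * r / (1 + r) = p / 2 + d := by rw [hd]; field_simp; ring
  have e2 : p / (1 + r) = p / 2 - d := by rw [hd]; field_simp; ring
  rw [Phi, e1, e2, ff]
  have c1 : p / 2 + d + (1 - p / 2) = 1 + d := by ring
  have c2 : p / 2 - d + (1 - p / 2) = 1 - d := by ring
  have c3 : 2 - p + (p / 2 + d) = 2 - p / 2 + d := by ring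
  have c4 : 2 - p + (p / 2 - d) = 2 - p / 2 - d := by ring
  have c5 : h + (p / 2 + d) = h + p / 2 + d := by ring
  have c6 : h + (p / 2 - d) = h + p / 2 - d := by ring
  have c7 : 2 - (p / 2 + d) = 2 - p / 2 - d := by ring
  have c8 : 2 - (p / 2 - d) = 2 - p / 2 + d := by ring
  rw [c1, c2, c3, c4, c5, c6, c7, c8]
  ring

theorem j2 : StmJ2 := by
  intro p h r hp hp2 hh hhp hab hr hr1
  obtain ⟨c, hc⟩ := Phi_eq p h
  rw [hc 1 one_pos, hc r hr]
  have e0 : p * ((1 : ℝ) - 1) / (2 * (1 + 1)) = 0 := by simp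
  rw [e0]
  have hr' : (0 : ℝ) < 1 + r := by positivity
  have hlt : ff p h 0 < ff p h (p * (r - 1) / (2 * (1 + r))) := by
    apply ff_lt hp hp2 hh hhp hab
    · rw [lt_div_iff₀ (by positivity)]
      nlinarith [mul_pos hp hr]
    · rw [div_lt_iff₀ (by positivity)]
      nlinarith [mul_pos hp hr]
    · apply div_ne_zero
      · exact mul_ne_zero hp.ne' (sub_ne_zero.mpr hr1)
      · positivity
  linarith

end Pool.Agent.K3h88.Loz
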