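import Pool.Agent.K3h88.Loz.Stm

/-!
# The limit
-/

set_option autoImplicit false

namespace Pool.Agent.K3h88.Loz

open Filter Topology

theorem sf_pos (n : ℕ) : 0 < sf n := by
  unfold sf
  exact Finset.prod_pos fun i _ => by exact_mod_cast i.factorial_pos

theorem disj {N m n x : ℕ} (hm : Even m) (hn : Even n) (hx : x ≤ N) {u e : ℤ}
    (hu : u ∈ Us N m n x) (he : e ∈ Es N m n x) : u ≠ e := by
  obtain ⟨m', rfl⟩ := hm
  obtain ⟨n', rfl⟩ := hn
  have hs : side N (m' + m') (n' + n') = N + m' + n' := by unfold side; omega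
  simp only [Us, Es, Ds, Finset.mem_union, Finset.mem_image, Finset.mem_filter,
    Finset.mem_range, Finset.mem_Ico, hs] at hu he
  push_cast at hu he
  rintro rfl
  rcases hu with ⟨i, ⟨hi, ⟨i', hi'⟩⟩, rfl⟩ | ⟨i, ⟨hi, ⟨i', hi'⟩⟩, rfl⟩ <;>
    rcases he with (he | ⟨j, ⟨hj, ⟨j', hj'⟩⟩, he⟩ | ⟨j, ⟨hj, ⟨j', hj'⟩⟩, he⟩) | he <;> omega

theorem PP_pos {N m n x : ℕ} (hm : Even m) (hn : Even n) (hx : x ≤ N) :
    0 < PP (Us N m n x) (Es N m n x) := by
  unfold PP
  refine Finset.prod_pos fun u hu => Finset.prod_pos fun e he => ?_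
  rw [abs_pos, sub_ne_zero]
  exact_mod_cast disj hm hn hx hu he

theorem h3 : StmH3 := by
  intro H1 H2 hcl p h r hp hp2 hh hhp hr N m n x hA
  obtain ⟨hm, hn, hx, hL, hM, hxL, hmn⟩ := hA
  set L : ℕ → ℕ := fun i => side (N i) (m i) (n i) with hLdef
  have hLN : ∀ i, (L i : ℝ) = N i + (m i + n i) / 2 := by
    intro i
    obtain ⟨m', h1⟩ := hm i
    obtain ⟨n', h2⟩ := hn i
    have : L i = N i + m' + n' := by simp only [hLdef, side]; omega
    rw [this, h1, h2]; push_cast; ring
  have hLr : Tendsto (fun i => (L i : ℝ)) atTop atTop := tendsto_natCast_atTop_atTop.comp hL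
  have hLpos : ∀ᶠ i in atTop, (0 : ℝ) < L i := hLr.eventually_gt_atTop 0
  have hr1 : (0 : ℝ) < 1 + r := by positivity
  have hnne : ∀ᶠ i in atTop, (n i : ℝ) ≠ 0 := by
    filter_upwards [hmn.eventually (lt_mem_nhds hr)] with i hi hc
    rw [hc, div_zero] at hi
    exact lt_irrefl _ hi
  have hmnn : Tendsto (fun i => 1 + (m i : ℝ) / n i) atTop (𝓝 (1 + r)) := hmn.const_add 1
  have tn : Tendsto (fun i => (n i : ℝ) / L i) atTop (𝓝 (p / (1 + r))) := by
    have := hM.div hmnn hr1.ne'
    refine this.congr' ?_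
    filter_upwards [hnne] with i hi
    rw [Pi.div_apply]
    have h1 : (n i : ℝ) + m i ≠ 0 := by positivity
    have h2 : 1 + (m i : ℝ) / n i = ((n i : ℝ) + m i) / n i := by field_simp
    rw [h2]
    have h3 : (m i : ℝ) + n i = (n i : ℝ) + m i := add_comm _ _
    rw [h3]
    change (((n i : ℝ) + m i) / (L i : ℝ)) / (((n i : ℝ) + m i) / n i) = (n i : ℝ) / (L i : ℝ)
    rw [div_div_eq_mul_div, div_mul_eq_mul_div, div_div, mul_comm ((n i : ℝ) + m i) (n i : ℝ),
      mul_div_mul_right _ _ h1]
  have tm : Tendsto (fun i => (m i : ℝ) / L i) atTop (𝓝 (p * r / (1 + r))) := by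
    have := hM.sub tn
    have e : p - p / (1 + r) = p * r / (1 + r) := by field_simp; ring
    rw [e] at this
    refine this.congr ?_
    intro i
    ring
  have tN : Tendsto (fun i => (N i : ℝ) / L i) atTop (𝓝 (1 - p / 2)) := by
    have := (hM.div_const 2).const_sub 1
    refine this.congr' ?_
    filter_upwards [hLpos] with i hi
    have h1 := hLN i
    change 1 - ((m i : ℝ) + n i) / (L i : ℝ) / 2 = (N i : ℝ) / (L i : ℝ)
    have h2 : (N i : ℝ) = (L i : ℝ) - ((m i : ℝ) + n i) / 2 := by rw [h1]; ring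
    rw [h2, sub_div, div_self hi.ne']
    ring
  have tL : Tendsto (fun i => (L i : ℝ) / L i) atTop (𝓝 1) := by
    refine tendsto_const_nhds.congr' ?_
    filter_upwards [hLpos] with i hi
    rw [div_self hi.ne']
  have hxN : ∀ i, x i ≤ L i := fun i => (hx i).trans (by simp only [hLdef, side]; omega)
  have hmL : ∀ i, m i ≤ 2 * L i := fun i => by
    obtain ⟨m', h1⟩ := hm i
    obtain ⟨n', h2⟩ := hn i
    simp only [hLdef, side]; omega
  have hnL : ∀ i, n i ≤ 2 * L i := fun i => by
    obtain ⟨m', h1⟩ := hm i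
    obtain ⟨n', h2⟩ := hn i
    simp only [hLdef, side]; omega
  -- the arguments
  have a1 := H1 L (fun i => N i - x i) (1 - p / 2 - h) hL (by
    refine (tN.sub hxL).congr ?_
    intro i; push_cast [Nat.cast_sub (hx i)]; ring)
  have a2 := H1 L (fun i => N i + (m i + n i) + x i) (1 + p / 2 + h) hL (by
    have := (tN.add (tm.add tn)).add hxL
    have e : 1 - p / 2 + (p * r / (1 + r) + p / (1 + r)) + h = 1 + p / 2 + h := by
      field_simp; ring
    rw [e] at this
    refine this.congr ?_
    intro i; push_cast; ring)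
  have a3 := H1 L (fun i => m i + N i) (p * r / (1 + r) + (1 - p / 2)) hL (by
    refine (tm.add tN).congr ?_
    intro i; push_cast; ring)
  have a4 := H1 L (fun i => n i + N i) (p / (1 + r) + (1 - p / 2)) hL (by
    refine (tn.add tN).congr ?_
    intro i; push_cast; ring)
  have a5 := H1 L (fun i => 3 * N i + (m i + n i)) (3 - p / 2) hL (by
    have := (tN.const_mul 3).add (tm.add tn)
    have e : 3 * (1 - p / 2) + (p * r / (1 + r) + p / (1 + r)) = 3 - p / 2 := by
      field_simp; ring
    rw [e] at this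
    refine this.congr ?_
    intro i; push_cast; ring)
  have a6 := H1 L N (1 - p / 2) hL tN
  have b1 := H1 L (fun i => L i - x i) (1 - h) hL (by
    refine (tL.sub hxL).congr ?_
    intro i; push_cast [Nat.cast_sub (hxN i)]; ring)
  have b2 := H1 L (fun i => L i + x i) (1 + h) hL (by
    refine (tL.add hxL).congr ?_
    intro i; push_cast; ring)
  have b3 := H1 L (fun i => 2 * L i) 2 hL (by
    have := tL.const_mul 2
    rw [mul_one] at this
    refine this.congr ?_
    intro i; push_cast; ring)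
  have b4 := H1 L (fun i => 2 * N i + m i) (2 - p + p * r / (1 + r)) hL (by
    have := (tN.const_mul 2).add tm
    have e : 2 * (1 - p / 2) + p * r / (1 + r) = 2 - p + p * r / (1 + r) := by ring
    rw [e] at this
    refine this.congr ?_
    intro i; push_cast; ring)
  have b5 := H1 L (fun i => 2 * N i + n i) (2 - p + p / (1 + r)) hL (by
    have := (tN.const_mul 2).add tn
    have e : 2 * (1 - p / 2) + p / (1 + r) = 2 - p + p / (1 + r) := by ring
    rw [e] at this
    refine this.congr ?_
    intro i; push_cast; ring)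
  have c1 := H1 L (fun i => x i + m i) (h + p * r / (1 + r)) hL (by
    refine (hxL.add tm).congr ?_
    intro i; push_cast; ring)
  have c2 := H1 L (fun i => x i + n i) (h + p / (1 + r)) hL (by
    refine (hxL.add tn).congr ?_
    intro i; push_cast; ring)
  have c3 := H1 L x h hL hxL
  have hx2 : ∀ i, x i ≤ 2 * N i := fun i => (hx i).trans (by omega)
  have hxL2 : ∀ i, x i ≤ 2 * L i := fun i => (hxN i).trans (by omega)
  have c4 := H1 L (fun i => 2 * N i - x i) (2 - p - h) hL (by
    have := (tN.const_mul 2).sub hxL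
    have e : 2 * (1 - p / 2) - h = 2 - p - h := by ring
    rw [e] at this
    refine this.congr ?_
    intro i; push_cast [Nat.cast_sub (hx2 i)]; ring)
  have c5 := H1 L (fun i => 2 * L i - x i) (2 - h) hL (by
    have := (tL.const_mul 2).sub hxL
    rw [mul_one] at this
    refine this.congr ?_
    intro i; push_cast [Nat.cast_sub (hxL2 i)]; ring)
  have c6 := H1 L (fun i => 2 * L i - m i) (2 - p * r / (1 + r)) hL (by
    have := (tL.const_mul 2).sub tm
    rw [mul_one] at this
    refine this.congr ?_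
    intro i; push_cast [Nat.cast_sub (hmL i)]; ring)
  have c7 := H1 L (fun i => 2 * L i - n i) (2 - p / (1 + r)) hL (by
    have := (tL.const_mul 2).sub tn
    rw [mul_one] at this
    refine this.congr ?_
    intro i; push_cast [Nat.cast_sub (hnL i)]; ring)
  -- the error term
  have herr : Tendsto (fun i => (Real.log (PP (Us (N i) (m i) (n i) (x i))
      (Es (N i) (m i) (n i) (x i))) - Xi (N i) (m i) (n i) (x i) / 2) / (L i : ℝ) ^ 2) atTop
      (𝓝 0) := by
    obtain ⟨C, hC⟩ := H2
    have hlog : Tendsto (fun i => C * (Real.log (4 * (L i : ℝ)) / (4 * (L i : ℝ))) * 4) atTop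
        (𝓝 0) := by
      have h4 : Tendsto (fun i => 4 * (L i : ℝ)) atTop atTop :=
        hLr.const_mul_atTop (by norm_num)
      have h5 : Tendsto (fun y : ℝ => Real.log y / y) atTop (𝓝 0) := by
        have := Real.isLittleO_log_id_atTop.tendsto_div_nhds_zero
        simpa using this
      have := ((h5.comp h4).const_mul C).mul_const 4
      simpa using this
    refine squeeze_zero_norm' ?_ hlog
    filter_upwards [hLpos] with i hi
    have h1 : 1 ≤ side (N i) (m i) (n i) := by
      have : (0 : ℝ) < (L i : ℝ) := hi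
      exact_mod_cast Nat.cast_pos.mp this
    have h2 := hC (N i) (m i) (n i) (x i) (hm i) (hn i) (hx i) h1
    rw [Real.norm_eq_abs, abs_div, abs_of_pos (pow_pos hi 2), div_le_iff₀ (pow_pos hi 2)]
    refine h2.trans (le_of_eq ?_)
    show C * (L i : ℝ) * Real.log (4 * (L i : ℝ)) = _
    field_simp
  have hfin := (((((((((((((((((a1.add a2).add a3).add a4).add a5).add a6).sub b1).sub b2).sub
    b3).sub b4).sub b5).sub (c1.div_const 2)).sub (c2.div_const 2)).add c3).sub
    (c4.div_const 2)).add (c5.div_const 2)).sub b3).add (c6.div_const 2)).add (c7.div_const 2)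
  have hfin2 := hfin.sub herr
  have hval : V (1 - p / 2 - h) + V (1 + p / 2 + h) + V (p * r / (1 + r) + (1 - p / 2)) +
      V (p / (1 + r) + (1 - p / 2)) + V (3 - p / 2) + V (1 - p / 2) - V (1 - h) - V (1 + h) -
      V 2 - V (2 - p + p * r / (1 + r)) - V (2 - p + p / (1 + r)) -
      V (h + p * r / (1 + r)) / 2 - V (h + p / (1 + r)) / 2 + V h - V (2 - p - h) / 2 +
      V (2 - h) / 2 - V 2 + V (2 - p * r / (1 + r)) / 2 + V (2 - p / (1 + r)) / 2 - 0 =
      Phi p h r := by
    rw [Phi]; ring
  rw [hval] at hfin2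
  refine hfin2.congr' ?_
  filter_upwards [hLpos] with i hi
  have hcli := hcl (N i) (m i) (n i) (x i) (hm i) (hn i) (hx i)
  have hPP := PP_pos (hm i) (hn i) (hx i)
  have hlogT : Real.log (numT (N i) (m i) (n i) (x i)) =
      Real.log (sf (N i - x i)) + Real.log (sf (N i + (m i + n i) + x i)) +
      Real.log (sf (m i + N i)) + Real.log (sf (n i + N i)) +
      Real.log (sf (3 * N i + (m i + n i))) + Real.log (sf (N i)) -
      (Real.log (sf (L i - x i)) + Real.log (sf (L i + x i)) + Real.log (sf (2 * L i)) +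
        Real.log (sf (2 * N i + m i)) + Real.log (sf (2 * N i + n i)) +
        Real.log (PP (Us (N i) (m i) (n i) (x i)) (Es (N i) (m i) (n i) (x i)))) := by
    rw [hcli]
    have q := fun k => (sf_pos k).ne'
    rw [Real.log_div (by simp [q]) (by simp [q, hPP.ne']),
      Real.log_mul (by simp [q]) (q _), Real.log_mul (by simp [q]) (q _),
      Real.log_mul (by simp [q]) (q _), Real.log_mul (by simp [q]) (q _),
      Real.log_mul (q _) (q _),
      Real.log_mul (by simp [q]) hPP.ne', Real.log_mul (by simp [q]) (q _),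
      Real.log_mul (by simp [q]) (q _), Real.log_mul (by simp [q]) (q _),
      Real.log_mul (q _) (q _)]
  have hXi : Xi (N i) (m i) (n i) (x i) = Real.log (sf (x i + m i)) +
      Real.log (sf (x i + n i)) - 2 * Real.log (sf (x i)) + Real.log (sf (2 * N i - x i)) -
      Real.log (sf (2 * L i - x i)) + 2 * Real.log (sf (2 * L i)) -
      Real.log (sf (2 * L i - m i)) - Real.log (sf (2 * L i - n i)) := rfl
  show _ = Real.log (numT (N i) (m i) (n i) (x i)) / (L i : ℝ) ^ 2
  rw [hlogT, hXi]
  have k1 : ((N i - x i : ℕ) : ℝ) = N i - x i := Nat.cast_sub (hx i)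
  have k2 : ((L i - x i : ℕ) : ℝ) = L i - x i := Nat.cast_sub (hxN i)
  have k3 : ((2 * N i - x i : ℕ) : ℝ) = 2 * N i - x i := by
    rw [Nat.cast_sub (hx2 i)]; push_cast; ring
  have k4 : ((2 * L i - x i : ℕ) : ℝ) = 2 * L i - x i := by
    rw [Nat.cast_sub (hxL2 i)]; push_cast; ring
  have k5 : ((2 * L i - m i : ℕ) : ℝ) = 2 * L i - m i := by
    rw [Nat.cast_sub (hmL i)]; push_cast; ring
  have k6 : ((2 * L i - n i : ℕ) : ℝ) = 2 * L i - n i := by
    rw [Nat.cast_sub (hnL i)]; push_cast; ring
  rw [k1, k2, k3, k4, k5, k6]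
  push_cast
  have hLN' := hLN i
  set ℓ := Real.log (L i : ℝ) with hℓ
  have hNe : (N i : ℝ) = L i - (m i + n i) / 2 := by rw [hLN']; ring
  rw [hNe]
  field_simp
  ring

end Pool.Agent.K3h88.Loz
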