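import Pool.Agent.K3h88.Loz.Stm

/-!
# Existence of admissible sequences
-/

set_option autoImplicit false

namespace Pool.Agent.K3h88.Loz

open Filter Topology

theorem j1 : StmJ1 := by
  intro p h r hp hp2 hh hhp hr
  have hr1 : (0 : ℝ) < 1 + r := by positivity
  set μ := p * r / (1 + r) with hμ
  set ν := p / (1 + r) with hν
  have hμ0 : 0 < μ := by positivity
  have hν0 : 0 < ν := by positivity
  have hsum : μ + ν = p := by rw [hμ, hν]; field_simp; ring
  have hcast : Tendsto (fun i : ℕ => (i : ℝ)) atTop atTop := tendsto_natCast_atTop_atTop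
  have t1 : Tendsto (fun i : ℕ => (⌊μ / 2 * (i : ℝ)⌋₊ : ℝ) / (i : ℝ)) atTop (𝓝 (μ / 2)) :=
    (tendsto_nat_floor_mul_div_atTop (by positivity)).comp hcast
  have t2 : Tendsto (fun i : ℕ => (⌊ν / 2 * (i : ℝ)⌋₊ : ℝ) / (i : ℝ)) atTop (𝓝 (ν / 2)) :=
    (tendsto_nat_floor_mul_div_atTop (by positivity)).comp hcast
  have t3 : Tendsto (fun i : ℕ => (⌊h * (i : ℝ)⌋₊ : ℝ) / (i : ℝ)) atTop (𝓝 h) :=
    (tendsto_nat_floor_mul_div_atTop hh.le).comp hcast
  have t4 : Tendsto (fun i : ℕ => (⌈(1 - p / 2) * (i : ℝ)⌉₊ : ℝ) / (i : ℝ)) atTop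
      (𝓝 (1 - p / 2)) :=
    (tendsto_nat_ceil_mul_div_atTop (by linarith)).comp hcast
  set N : ℕ → ℕ := fun i => ⌈(1 - p / 2) * (i : ℝ)⌉₊ with hN
  set m : ℕ → ℕ := fun i => 2 * ⌊μ / 2 * (i : ℝ)⌋₊ with hm
  set n : ℕ → ℕ := fun i => 2 * ⌊ν / 2 * (i : ℝ)⌋₊ with hn
  set x : ℕ → ℕ := fun i => ⌊h * (i : ℝ)⌋₊ with hx
  have hside : ∀ i, (side (N i) (m i) (n i) : ℝ) =
      (⌈(1 - p / 2) * (i : ℝ)⌉₊ : ℝ) + (⌊μ / 2 * (i : ℝ)⌋₊ : ℝ) +
        (⌊ν / 2 * (i : ℝ)⌋₊ : ℝ) := by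
    intro i
    have : side (N i) (m i) (n i) =
        ⌈(1 - p / 2) * (i : ℝ)⌉₊ + ⌊μ / 2 * (i : ℝ)⌋₊ + ⌊ν / 2 * (i : ℝ)⌋₊ := by
      simp only [side, hN, hm, hn]; omega
    rw [this]; push_cast; ring
  have tS : Tendsto (fun i : ℕ => (side (N i) (m i) (n i) : ℝ) / (i : ℝ)) atTop (𝓝 1) := by
    have := (t4.add t1).add t2
    have e : (1 - p / 2) + μ / 2 + ν / 2 = 1 := by rw [← hsum]; ring
    rw [e] at this
    refine this.congr ?_
    intro i
    rw [hside]; ring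
  have hne : ∀ᶠ i : ℕ in atTop, (i : ℝ) ≠ 0 := by
    filter_upwards [eventually_gt_atTop 0] with i hi
    exact_mod_cast hi.ne'
  refine ⟨N, m, n, x, ?_, ?_, ?_, ?_, ?_, ?_, ?_⟩
  · intro i; exact ⟨⌊μ / 2 * (i : ℝ)⌋₊, by simp only [hm]; ring⟩
  · intro i; exact ⟨⌊ν / 2 * (i : ℝ)⌋₊, by simp only [hn]; ring⟩
  · intro i
    simp only [hx, hN]
    refine (Nat.floor_le_floor ?_).trans (Nat.floor_le_ceil _)
    exact mul_le_mul_of_nonneg_right hhp (Nat.cast_nonneg i)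
  · rw [← tendsto_natCast_atTop_iff (R := ℝ)]
    have := tS.pos_mul_atTop one_pos hcast
    refine this.congr' ?_
    filter_upwards [hne] with i hi
    rw [div_mul_cancel₀ _ hi]
  · have h1 : Tendsto (fun i : ℕ => ((m i : ℝ) + n i) / i) atTop (𝓝 p) := by
      have := (t1.const_mul 2).add (t2.const_mul 2)
      have e : 2 * (μ / 2) + 2 * (ν / 2) = p := by rw [← hsum]; ring
      rw [e] at this
      refine this.congr ?_
      intro i
      simp only [hm, hn]; push_cast; ring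
    have := h1.div tS one_ne_zero
    rw [div_one] at this
    refine this.congr' ?_
    filter_upwards [hne] with i hi
    exact div_div_div_cancel_right₀ hi _ _
  · have := t3.div tS one_ne_zero
    rw [div_one] at this
    refine this.congr' ?_
    filter_upwards [hne] with i hi
    exact div_div_div_cancel_right₀ hi _ _
  · have := t1.div t2 (by positivity)
    have e : μ / 2 / (ν / 2) = r := by rw [hμ, hν]; field_simp
    rw [e] at this
    refine this.congr' ?_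
    filter_upwards [hne] with i hi
    rw [Pi.div_apply, div_div_div_cancel_right₀ hi]
    simp only [hm, hn]; push_cast
    rw [mul_div_mul_left _ _ (two_ne_zero)]

end Pool.Agent.K3h88.Loz
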