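import Pool.Agent.K3h88.Loz.Conv
import Pool.Agent.K3h88.Loz.Seq
import Pool.Agent.K3h88.Loz.Lim
import Pool.Agent.K3h88.Loz.Closed
import Pool.Agent.K3h19.Loz.H1
import Pool.Agent.K3h6.Loz.H2

/-!
# Assembly
-/

set_option autoImplicit false

namespace Pool.Agent.K3h88.Loz

open Filter Topology

theorem exists_adm (p h r : ℝ) (hp : 0 < p) (hp2 : p < 2) (hh : 0 < h) (hhp : h ≤ 1 - p / 2)
    (hr : 0 < r) : ∃ N m n x : ℕ → ℕ, Adm p h r N m n x :=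
  j1 p h r hp hp2 hh hhp hr

theorem strict (p h r : ℝ) (hp : 0 < p) (hp2 : p < 2) (hh : 0 < h) (hhp : h ≤ 1 - p / 2)
    (hab : (h + p / 2) * (2 - p / 2) < 1) (hr : 0 < r) (hr1 : r ≠ 1) : Phi p h 1 < Phi p h r :=
  j2 p h r hp hp2 hh hhp hab hr hr1

theorem limit (p h r : ℝ) (hp : 0 < p) (hp2 : p < 2) (hh : 0 < h) (hhp : h ≤ 1 - p / 2)
    (hr : 0 < r) (N m n x : ℕ → ℕ) (hA : Adm p h r N m n x) :
    Tendsto (fun i => Real.log (numT (N i) (m i) (n i) (x i)) /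
      (side (N i) (m i) (n i) : ℝ) ^ 2) atTop (𝓝 (Phi p h r)) :=
  h3 Pool.Agent.K3h19.Loz.h1 Pool.Agent.K3h6.Loz.h2 closed p h r hp hp2 hh hhp hr N m n x hA

end Pool.Agent.K3h88.Loz
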